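import Pool.Agent.AAS.FNA

set_option autoImplicit false

namespace Pool.Agent.Results.MP_fa2474_nt.AlmostAllShifts

open MeasureTheory Pool.Agent.H26

/-- For `k ≥ 1` and `max 0 ((k - 1) / (3 k)) < θ₁ ≤ θ₂ < 1` the recipe for the shifted moments of
`k + 1` pairs holds with a power saving for all shifts
`(α₀, α₁ + v₁, …, α_k + v_k; β₀, β₁ + v₁, …, β_k + v_k)` with bounded `α, β` and all `T` with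
`T ^ θ₁ ≤ ‖v‖ ≤ T ^ θ₂`, if `v` lies outside a fixed set of density zero. -/
theorem result (k : ℕ) (hk : 1 ≤ k) (θ₁ θ₂ : ℝ) (h₀ : 0 < θ₁)
    (h₁ : ((k : ℝ) - 1) / (3 * k) < θ₁) (h₁₂ : θ₁ ≤ θ₂) (h₂ : θ₂ < 1) :
    ∃ c : ℝ, 0 < c ∧ ∃ Ex : Set (Fin k → ℝ), MeasurableSet Ex ∧
      (∀ V : ℝ, 1 ≤ V → volume (Ex ∩ {v | ‖v‖ ≤ V}) ≤ ENNReal.ofReal (V ^ ((k : ℝ) - c))) ∧
      ∀ B : ℝ, ∃ C : ℝ, ∀ v : Fin k → ℝ, v ∉ Ex → ∀ T : ℝ, 1 ≤ T → T ^ θ₁ ≤ ‖v‖ → ‖v‖ ≤ T ^ θ₂ →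
        ∀ α β : Fin (k + 1) → ℝ, (∀ j, |α j| ≤ B) → (∀ j, |β j| ≤ B) →
          ‖E (fun j => α j + (Fin.cons 0 v : Fin (k + 1) → ℝ) j)
            (fun j => β j + (Fin.cons 0 v : Fin (k + 1) → ℝ) j) T‖ ≤ C * T ^ (1 - c) :=
  Pool.Agent.AAS.almost_all_sharp k hk θ₁ θ₂ h₀ h₁ h₁₂ h₂

end Pool.Agent.Results.MP_fa2474_nt.AlmostAllShifts
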