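import Pool.Agent.H26.SP.SLAB

/-!
# The error in the shifted moments of the Riemann zeta function on the critical scale

`F_T(γ) = Fp φ γ T` is the error in the asymptotic formula of Conrey, Farmer, Keating, Rubinstein
and Snaith for the shifted moment with the shifts `γ = (α, β)` and the smooth weight `φ(t / T)`.
As a function of the shifts, each main term of the recipe oscillates on the scale `1 / log T`: it
is a multiple of `T ^ (- i ⟨θ, γ⟩)`, where `⟨θ, γ⟩ = ∑ θ_j α_j - ∑ θ_l β_l` and `θ` is a balanced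
vertex of the cube `[0,1]^(2k)`.

The theorem says that, up to a power saving, the error has on this scale no frequencies outside the
central polytope, which consists of the `θ` in `[0,1]^(2k)` whose two blocks have the same sum and
whose `ℓ¹` distance from each balanced vertex is at least `2`. With `a = 0` it bounds averages of
the error over windows of length `1 / log T`; with `a = -1` it says that the error at `γ` is equal
to its average over a window whose Fourier transform is `1` near the central polytope.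

An example (`slab`): all the shifts except `β_2, ..., β_k` are fixed, those move together, and the
Fourier transform of the window vanishes outside a compact subset of `(-1/k, 1/k)`.
-/

namespace Pool.Agent.Results.MP_fa2474_nt.CriticalWindows

open Complex MeasureTheory Filter Topology Pool.Agent.H26
open scoped ContDiff SchwartzMap

/-- The example in which only the shifts `β_2, ..., β_k` move. -/
theorem slab (k : ℕ) (hk : 1 ≤ k) (f : 𝓢(ℝ, ℂ)) {η : ℝ} (hη : 0 < η)
    (hf : ∀ ξ : ℝ, 1 / (k : ℝ) - η ≤ |ξ| → ∫ y : ℝ, f y * cexp (-(I * ξ * y)) = 0)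
    (φ : ℝ → ℂ) (hφ : ContDiff ℝ ∞ φ) (hφc : HasCompactSupport φ) (hφp : tsupport φ ⊆ Set.Ioi 0) :
    ∃ c : ℝ, 0 < c ∧ ∀ B : ℝ, ∃ C : ℝ, ∀ γ : Fin k ⊕ Fin k → ℝ, ‖γ‖ ≤ B → ∀ T : ℝ, 3 ≤ T →
      ‖∫ y : ℝ, f y * Fp φ (γ + (y / Real.log T) • (Sum.elim (fun _ => 0)
        (fun l => if (l : ℕ) = 0 then 0 else 1) : Fin k ⊕ Fin k → ℝ)) T‖ ≤ C * T ^ (1 - c) := by
  obtain ⟨n, rfl⟩ : ∃ n, k = n + 1 := ⟨k - 1, by omega⟩
  have e : (Sum.elim (fun _ => 0) (fun l => if (l : ℕ) = 0 then 0 else 1) :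
      Fin (n + 1) ⊕ Fin (n + 1) → ℝ) = slabDir n := by
    funext i
    rcases i with j | j
    · rfl
    · show (if (j : ℕ) = 0 then (0:ℝ) else 1) = if j = 0 then 0 else 1
      by_cases h : j = 0
      · rw [if_pos h, if_pos (by rw [h]; rfl)]
      · have h1 : ¬ (j : ℕ) = 0 := fun h' => h (Fin.ext h')
        rw [if_neg h, if_neg h1]
  rw [e]
  exact slab_theorem n f hη hf ⟨hφ, hφc, hφp⟩

/-- On the scale `1 / log T` the error has no frequencies outside the central polytope. -/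
theorem result (k n : ℕ) (L : (Fin n → ℝ) →ₗ[ℝ] (Fin k ⊕ Fin k → ℝ)) (f : 𝓢(Fin n → ℝ, ℂ)) (a : ℂ)
    (hf : ∀ᶠ θ in 𝓝ˢ (central k), a + ∫ y, f y * cexp (-(I * pairing θ (L y))) = 0)
    (φ : ℝ → ℂ) (hφ : ContDiff ℝ ∞ φ) (hφc : HasCompactSupport φ) (hφp : tsupport φ ⊆ Set.Ioi 0) :
    ∃ c : ℝ, 0 < c ∧ ∀ B : ℝ, ∃ C : ℝ, ∀ γ : Fin k ⊕ Fin k → ℝ, ‖γ‖ ≤ B → ∀ T : ℝ, 3 ≤ T →
      ‖a * Fp φ γ T + ∫ y, f y * Fp φ (γ + (Real.log T)⁻¹ • L y) T‖ ≤ C * T ^ (1 - c) :=
  central_theorem k n L f a hf ⟨hφ, hφc, hφp⟩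

end Pool.Agent.Results.MP_fa2474_nt.CriticalWindows
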