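import Pool.Agent.H26.Omega

/-!
# An omega theorem for the shifted moments of the Riemann zeta function

`E α β T` is the error in the asymptotic formula of Conrey, Farmer, Keating, Rubinstein and Snaith
for the shifted moment with the shifts `(α, β)`. For `a < k / (2 (k + 1))` there is a radius `ρ`
such that every ball of radius `ρ` holds a set of positive measure of shifts for which the error
is not `O(T^a)`.
-/

namespace Pool.Agent.Results.MP_fa2474_nt.OmegaLowerBound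

open MeasureTheory Filter Asymptotics Pool.Agent.H26

/-- the two blocks of shifts, as a pair -/
noncomputable def toPair (k : ℕ) : (Ix k → ℝ) ≃ᵐ (Fin k → ℝ) × (Fin k → ℝ) :=
  MeasurableEquiv.sumPiEquivProdPi (fun _ : Ix k => ℝ)

lemma toPair_apply {k : ℕ} (γ : Ix k → ℝ) :
    toPair k γ = (fun j => γ (Sum.inl j), fun j => γ (Sum.inr j)) := rfl

lemma dist_toPair_lt {k : ℕ} (γ γ' : Ix k → ℝ) {r : ℝ} (hr : 0 < r) :
    dist (toPair k γ) (toPair k γ') < r ↔ dist γ γ' < r := by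
  rw [toPair_apply, toPair_apply, Prod.dist_eq, max_lt_iff, dist_pi_lt_iff hr,
    dist_pi_lt_iff hr, dist_pi_lt_iff hr, Sum.forall]

theorem result (k : ℕ) (hk : 1 ≤ k) {a : ℝ} (ha : a < k / (2 * (k + 1))) :
    ∃ ρ : ℝ, 0 < ρ ∧ ∀ p₀ : (Fin k → ℝ) × (Fin k → ℝ),
      0 < volume {p : (Fin k → ℝ) × (Fin k → ℝ) | p ∈ Metric.ball p₀ ρ ∧
        ¬ (fun T : ℝ => E p.1 p.2 T) =O[atTop] (fun T : ℝ => T ^ a)} := by
  obtain ⟨n, rfl⟩ : ∃ n, k = n + 1 := ⟨k - 1, by omega⟩
  set a' : ℝ := max a 0 with ha'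
  have h1 : 2 * ((n : ℝ) + 2) * a' < n + 1 := by
    have h2 : a' < ((n + 1 : ℕ) : ℝ) / (2 * (((n + 1 : ℕ) : ℝ) + 1)) := by
      rw [ha', max_lt_iff]
      refine ⟨ha, ?_⟩
      positivity
    rw [lt_div_iff₀ (by positivity)] at h2
    push_cast at h2
    linarith
  obtain ⟨ρ, hρ0, hρ⟩ := omega_ball n (le_max_right a 0) h1
  refine ⟨ρ, hρ0, fun p₀ => ?_⟩
  obtain ⟨γ₀, rfl⟩ := (toPair (n + 1)).surjective p₀
  by_contra h
  rw [not_lt, nonpos_iff_eq_zero] at h
  have hmp : MeasurePreserving (toPair (n + 1)) := volume_measurePreserving_sumPiEquivProdPi _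
  rw [← hmp.measure_preimage_equiv] at h
  refine hρ γ₀ ?_
  have h2 := measure_eq_zero_iff_ae_notMem.1 h
  filter_upwards [h2] with γ h3 hγ
  have h4 : (fun T : ℝ => Er γ T) =O[atTop] (fun T : ℝ => T ^ a) := by
    by_contra h5
    exact h3 ⟨(dist_toPair_lt γ γ₀ hρ0).2 hγ, h5⟩
  refine h4.trans (IsBigO.of_bound 1 ?_)
  filter_upwards [eventually_ge_atTop (1:ℝ)] with T hT
  rw [one_mul, Real.norm_of_nonneg (by positivity), Real.norm_of_nonneg (by positivity)]
  exact Real.rpow_le_rpow_of_exponent_le hT (le_max_left a 0)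

end Pool.Agent.Results.MP_fa2474_nt.OmegaLowerBound
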